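import Pool.Agent.Helper17_MTB.Pri
import Pool.Agent.Helper97_MTA.LadA
import Pool.Agent.Helper78_MTA.Uex

/-!
# MTN: the core of a group of matrices

`M0` is a core of the group `M` of complex matrices: a subgroup of finite index whose Zariski closure
is irreducible.  It exists, polynomial functions on tuples of elements of the core form a domain, and
the closure of the core contains all unipotent one parameter subgroups of the closure of `M`.
-/

set_option autoImplicit false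

namespace Pool.Agent.MTN.H53

open Matrix Pool.Agent.MT100A Pool.Agent.MT100A.H78 Pool.Agent.Helper78_MT

variable {d : Type} [Fintype d] [DecidableEq d]

/-- `M` is a group of invertible matrices. -/
structure IsG (M : Set (Matrix d d ℂ)) : Prop where
  det : ∀ a ∈ M, IsUnit a.det
  one : (1 : Matrix d d ℂ) ∈ M
  mul : ∀ a ∈ M, ∀ b ∈ M, a * b ∈ M
  inv : ∀ a ∈ M, a⁻¹ ∈ M

/-- `M0` is a subgroup of finite index of the group `M` with an irreducible Zariski closure. -/
structure Core (M M0 : Set (Matrix d d ℂ)) : Prop where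
  grp : IsG M0
  sub : M0 ⊆ M
  left : ∃ T : Finset (Matrix d d ℂ), (∀ t ∈ T, t ∈ M) ∧ ∀ g ∈ M, ∃ t ∈ T, ∃ m ∈ M0, g = t * m
  right : ∃ T : Finset (Matrix d d ℂ), (∀ t ∈ T, t ∈ M) ∧ ∀ g ∈ M, ∃ t ∈ T, ∃ m ∈ M0, g = m * t
  pri : ∀ p q : MvPolynomial (d × d) ℂ, (∀ g ∈ M0, pev g (p * q) = 0) →
    (∀ g ∈ M0, pev g p = 0) ∨ ∀ g ∈ M0, pev g q = 0

/-- The group of units with values in `M`. -/
def grp {M : Set (Matrix d d ℂ)} (hM : IsG M) : Subgroup (GL d ℂ) where
  carrier := {g | (g : Matrix d d ℂ) ∈ M}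
  mul_mem' := by
    intro a b ha hb
    change ((a * b : GL d ℂ) : Matrix d d ℂ) ∈ M
    rw [Units.val_mul]
    exact hM.mul _ ha _ hb
  one_mem' := by
    change ((1 : GL d ℂ) : Matrix d d ℂ) ∈ M
    rw [Units.val_one]
    exact hM.one
  inv_mem' := by
    intro a ha
    change ((a⁻¹ : GL d ℂ) : Matrix d d ℂ) ∈ M
    rw [Matrix.coe_units_inv]
    exact hM.inv _ ha

/-- Every group of matrices has a core. -/
theorem exists_core {M : Set (Matrix d d ℂ)} (hM : IsG M) : ∃ M0, Core M M0 := by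
  classical
  obtain ⟨Γ₁, -, hf, hmin⟩ := MT100B.H17.exists_normal (grp hM).subtype
  have hpri := MT100B.H17.JJ_prime (grp hM).subtype hf hmin
  obtain ⟨M0, hM0⟩ : ∃ M0 : Set (Matrix d d ℂ), M0 = {X | ∃ γ ∈ Γ₁, X = ((γ : GL d ℂ) : Matrix d d ℂ)} :=
    ⟨_, rfl⟩
  have hmem : ∀ γ ∈ Γ₁, ((γ : GL d ℂ) : Matrix d d ℂ) ∈ M0 := fun γ hγ => by
    rw [hM0]
    exact ⟨γ, hγ, rfl⟩
  have hfin : Finite ((grp hM) ⧸ Γ₁) := Subgroup.finite_quotient_of_finiteIndex
  have hlift : ∀ g ∈ M, ∃ γ : grp hM, ((γ : GL d ℂ) : Matrix d d ℂ) = g := by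
    intro g hg
    refine ⟨⟨Matrix.GeneralLinearGroup.mk'' g (hM.det g hg), ?_⟩, rfl⟩
    exact hg
  -- representatives
  obtain ⟨f, hf'⟩ : ∃ f : (grp hM) ⧸ Γ₁ → grp hM, ∀ x, (f x : (grp hM) ⧸ Γ₁) = x :=
    ⟨Quotient.out, fun x => Quotient.out_eq' x⟩
  have := Fintype.ofFinite ((grp hM) ⧸ Γ₁)
  obtain ⟨T, hT⟩ : ∃ T : Finset (Matrix d d ℂ),
      T = Finset.univ.image fun x => ((f x : GL d ℂ) : Matrix d d ℂ) := ⟨_, rfl⟩
  have hTM : ∀ t ∈ T, t ∈ M := by
    intro t ht
    rw [hT] at ht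
    obtain ⟨x, -, rfl⟩ := Finset.mem_image.1 ht
    exact (f x).2
  have hleft : ∀ g ∈ M, ∃ t ∈ T, ∃ m ∈ M0, g = t * m := by
    intro g hg
    obtain ⟨γ, rfl⟩ := hlift g hg
    have h1 : (f (γ : (grp hM) ⧸ Γ₁))⁻¹ * γ ∈ Γ₁ := QuotientGroup.eq.1 (hf' _)
    refine ⟨((f (γ : (grp hM) ⧸ Γ₁) : GL d ℂ) : Matrix d d ℂ), ?_, _, hmem _ h1, ?_⟩
    · rw [hT]
      exact Finset.mem_image_of_mem _ (Finset.mem_univ _)
    · rw [← Units.val_mul, ← Subgroup.coe_mul, mul_inv_cancel_left]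
  refine ⟨M0, ⟨?_, ?_, ?_, ?_⟩, ?_, ⟨T, hTM, hleft⟩, ?_, ?_⟩
  · intro a ha
    rw [hM0] at ha
    obtain ⟨γ, -, rfl⟩ := ha
    exact hM.det _ γ.2
  · rw [hM0]
    exact ⟨1, Γ₁.one_mem, rfl⟩
  · intro a ha b hb
    rw [hM0] at ha hb
    obtain ⟨γ, hγ, rfl⟩ := ha
    obtain ⟨δ, hδ, rfl⟩ := hb
    have := hmem _ (Γ₁.mul_mem hγ hδ)
    rw [Subgroup.coe_mul, Units.val_mul] at this
    exact this
  · intro a ha
    rw [hM0] at ha
    obtain ⟨γ, hγ, rfl⟩ := ha
    have := hmem _ (Γ₁.inv_mem hγ)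
    rw [Subgroup.coe_inv, Matrix.coe_units_inv] at this
    exact this
  · intro a ha
    rw [hM0] at ha
    obtain ⟨γ, -, rfl⟩ := ha
    exact γ.2
  · refine ⟨T.image fun t => t⁻¹, ?_, ?_⟩
    · intro t ht
      obtain ⟨s, hs, rfl⟩ := Finset.mem_image.1 ht
      exact hM.inv _ (hTM s hs)
    · intro g hg
      obtain ⟨t, ht, m, hm, h1⟩ := hleft _ (hM.inv g hg)
      refine ⟨t⁻¹, Finset.mem_image_of_mem _ ht, m⁻¹, ?_, ?_⟩
      · rw [hM0] at hm
        obtain ⟨γ, hγ, rfl⟩ := hm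
        have := hmem _ (Γ₁.inv_mem hγ)
        rw [Subgroup.coe_inv, Matrix.coe_units_inv] at this
        exact this
      · rw [← Matrix.mul_inv_rev, ← h1, Matrix.nonsing_inv_nonsing_inv _ (hM.det g hg)]
  · intro p q h
    have h1 : p * q ∈ MT100B.H17.JJ (grp hM).subtype Γ₁ := by
      intro γ hγ
      exact h _ (hmem γ hγ)
    rcases hpri.mem_or_mem h1 with h2 | h2
    · left
      intro g hg
      rw [hM0] at hg
      obtain ⟨γ, hγ, rfl⟩ := hg
      exact h2 γ hγ
    · right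
      intro g hg
      rw [hM0] at hg
      obtain ⟨γ, hγ, rfl⟩ := hg
      exact h2 γ hγ

/-! ### Tuples -/

/-- The value of a polynomial at a tuple of matrices. -/
noncomputable def tev {ι : Type} (g : ι → Matrix d d ℂ) : MvPolynomial (ι × d × d) ℂ →ₐ[ℂ] ℂ :=
  MvPolynomial.aeval fun x => g x.1 x.2.1 x.2.2

/-- The polynomial in the entries of the matrix with index `i`, all others being fixed. -/
noncomputable def fix {ι : Type} [DecidableEq ι] (i : ι) (g : ι → Matrix d d ℂ) :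
    MvPolynomial (ι × d × d) ℂ →ₐ[ℂ] MvPolynomial (d × d) ℂ :=
  MvPolynomial.aeval fun x => if x.1 = i then MvPolynomial.X x.2 else
    MvPolynomial.C (g x.1 x.2.1 x.2.2)

theorem pev_fix {ι : Type} [DecidableEq ι] (i : ι) (g : ι → Matrix d d ℂ) (X : Matrix d d ℂ)
    (A : MvPolynomial (ι × d × d) ℂ) : pev X (fix i g A) = tev (Function.update g i X) A := by
  have h : (pev (F := ℂ) X).comp (fix i g) = tev (Function.update g i X) := by
    apply MvPolynomial.algHom_ext
    intro x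
    rw [AlgHom.comp_apply]
    unfold fix tev
    rw [MvPolynomial.aeval_X, MvPolynomial.aeval_X]
    by_cases hx : x.1 = i
    · rw [if_pos hx, pev_X, hx, Function.update_self]
    · rw [if_neg hx, pev_C, Function.update_of_ne hx]
      rfl
  rw [← h]
  rfl

/-- Polynomial functions on the tuples of elements of the core form a domain. -/
theorem Core.domain {M M0 : Set (Matrix d d ℂ)} (hc : Core M M0) {ι : Type} [Fintype ι]
    [DecidableEq ι] (A B : MvPolynomial (ι × d × d) ℂ) (g h : ι → Matrix d d ℂ)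
    (hg : ∀ i, g i ∈ M0) (hh : ∀ i, h i ∈ M0) (hA : tev g A ≠ 0) (hB : tev h B ≠ 0) :
    ∃ k : ι → Matrix d d ℂ, (∀ i, k i ∈ M0) ∧ tev k A ≠ 0 ∧ tev k B ≠ 0 := by
  classical
  have key : ∀ s : Finset ι, ∃ g' h' : ι → Matrix d d ℂ, (∀ i, g' i ∈ M0) ∧ (∀ i, h' i ∈ M0) ∧
      tev g' A ≠ 0 ∧ tev h' B ≠ 0 ∧ ∀ i ∈ s, g' i = h' i := by
    intro s
    induction s using Finset.induction_on with
    | empty => exact ⟨g, h, hg, hh, hA, hB, fun i hi => absurd hi (Finset.notMem_empty i)⟩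
    | insert a s ha ih =>
      obtain ⟨g', h', h1, h2, h3, h4, h5⟩ := ih
      obtain ⟨X, hX, hX1, hX2⟩ : ∃ X ∈ M0, pev X (fix a g' A) ≠ 0 ∧ pev X (fix a h' B) ≠ 0 := by
        by_contra hcon
        push Not at hcon
        rcases hc.pri (fix a g' A) (fix a h' B) (fun X hX => by
          rw [map_mul]
          by_cases h6 : pev X (fix a g' A) = 0
          · rw [h6, zero_mul]
          · rw [hcon X hX h6, mul_zero]) with h6 | h6
        · have h7 := h6 (g' a) (h1 a)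
          rw [pev_fix, Function.update_eq_self] at h7
          exact h3 h7
        · have h7 := h6 (h' a) (h2 a)
          rw [pev_fix, Function.update_eq_self] at h7
          exact h4 h7
      rw [pev_fix] at hX1 hX2
      refine ⟨Function.update g' a X, Function.update h' a X, ?_, ?_, hX1, hX2, ?_⟩
      · intro i
        by_cases hi : i = a
        · rw [hi, Function.update_self]
          exact hX
        · rw [Function.update_of_ne hi]
          exact h1 i
      · intro i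
        by_cases hi : i = a
        · rw [hi, Function.update_self]
          exact hX
        · rw [Function.update_of_ne hi]
          exact h2 i
      · intro i hi
        by_cases hia : i = a
        · rw [hia, Function.update_self, Function.update_self]
        · rw [Function.update_of_ne hia, Function.update_of_ne hia]
          exact h5 i ((Finset.mem_insert.1 hi).resolve_left hia)
  obtain ⟨g', h', h1, h2, h3, h4, h5⟩ := key Finset.univ
  have h6 : g' = h' := funext fun i => h5 i (Finset.mem_univ i)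
  subst h6
  exact ⟨g', h1, h3, h4⟩

/-- A polynomial which vanishes on the tuples of elements of the core vanishes on the tuples of
elements of its closure. -/
theorem tev_closure {M0 : Set (Matrix d d ℂ)} {ι : Type} [Fintype ι] [DecidableEq ι]
    (A : MvPolynomial (ι × d × d) ℂ) (hA : ∀ g : ι → Matrix d d ℂ, (∀ i, g i ∈ M0) → tev g A = 0)
    (g : ι → Matrix d d ℂ) (hg : ∀ i, g i ∈ zclosure ℂ ℂ M0) : tev g A = 0 := by
  classical
  have key : ∀ s : Finset ι, ∀ g : ι → Matrix d d ℂ, (∀ i ∈ s, g i ∈ zclosure ℂ ℂ M0) →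
      (∀ i, i ∉ s → g i ∈ M0) → tev g A = 0 := by
    intro s
    induction s using Finset.induction_on with
    | empty => exact fun g _ h2 => hA g fun i => h2 i (Finset.notMem_empty i)
    | insert a s ha ih =>
      intro g h1 h2
      have h3 : ∀ X ∈ M0, pev X (fix a g A) = 0 := by
        intro X hX
        rw [pev_fix]
        refine ih _ ?_ ?_
        · intro i hi
          have hia : i ≠ a := fun h => ha (h ▸ hi)
          rw [Function.update_of_ne hia]
          exact h1 i (Finset.mem_insert_of_mem hi)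
        · intro i hi
          by_cases hia : i = a
          · rw [hia, Function.update_self]
            exact hX
          · rw [Function.update_of_ne hia]
            exact h2 i fun h => (Finset.mem_insert.1 h).elim hia hi
      have h4 := (h1 a (Finset.mem_insert_self a s)).2 (fix a g A) h3
      rw [pev_fix, Function.update_eq_self] at h4
      exact h4
  exact key Finset.univ g (fun i _ => hg i) fun i hi => absurd (Finset.mem_univ i) hi

/-! ### Unipotent one parameter subgroups -/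

/-- A polynomial function along a one parameter subgroup is a polynomial. -/
theorem curve_poly (t X : Matrix d d ℂ) (p : MvPolynomial (d × d) ℂ) :
    ∃ P : Polynomial ℂ, ∀ s : ℂ, P.eval s = pev (t * ue X s) p := by
  classical
  obtain ⟨Γ, hΓ⟩ : ∃ Γ : Matrix d d (Polynomial ℂ), ∀ s : ℂ,
      Γ.map (Polynomial.eval s) = t * ue X s := by
    refine ⟨Matrix.of fun i j => ∑ k, ∑ e ∈ Finset.range (Fintype.card d),
      Polynomial.C (t i k * ((e.factorial : ℂ)⁻¹ * (X ^ e) k j)) * Polynomial.X ^ e, ?_⟩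
    intro s
    ext i j
    rw [Matrix.map_apply, Matrix.of_apply, Matrix.mul_apply, Polynomial.eval_finsetSum]
    refine Finset.sum_congr rfl fun k _ => ?_
    rw [Polynomial.eval_finsetSum]
    unfold ue
    rw [Matrix.sum_apply, Finset.mul_sum]
    refine Finset.sum_congr rfl fun e _ => ?_
    rw [Polynomial.eval_mul, Polynomial.eval_C, Polynomial.eval_pow, Polynomial.eval_X,
      Matrix.smul_apply, smul_eq_mul]
    ring
  refine ⟨cev Γ p, fun s => ?_⟩
  rw [cev_eval, hΓ]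

/-- The closure of the core contains the unipotent one parameter subgroups of the closure. -/
theorem Core.uni {M M0 : Set (Matrix d d ℂ)} (hc : Core M M0) (hM : IsG M) {X : Matrix d d ℂ}
    (hX : IsNilpotent X) (h : ∀ s : ℂ, ue X s ∈ zclosure ℂ ℂ M) :
    ∀ s : ℂ, ue X s ∈ zclosure ℂ ℂ M0 := by
  classical
  obtain ⟨T, hTM, hT⟩ := hc.left
  -- every element of the closure is in a coset
  have hcos : ∀ g ∈ zclosure ℂ ℂ M, ∃ t ∈ T, t⁻¹ * g ∈ zclosure ℂ ℂ M0 := by
    intro g hg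
    by_contra hcon
    push Not at hcon
    have h1 : ∀ t ∈ T, ∃ p : MvPolynomial (d × d) ℂ, (∀ m ∈ M0, pev m p = 0) ∧
        pev (t⁻¹ * g) p ≠ 0 := by
      intro t ht
      by_contra h2
      push Not at h2
      apply hcon t ht
      refine ⟨?_, fun p hp => h2 p hp⟩
      rw [Matrix.det_mul]
      exact (hM.det _ (hM.inv t (hTM t ht))).mul hg.1
    choose! p hp1 hp2 using h1
    have h3 := hg.2 (∏ t ∈ T, lsub t⁻¹ (p t)) (by
      intro x hx
      obtain ⟨t, ht, m, hm, rfl⟩ := hT x hx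
      rw [map_prod]
      apply Finset.prod_eq_zero ht
      rw [pev_lsub, ← Matrix.mul_assoc, Matrix.nonsing_inv_mul _ (hM.det t (hTM t ht)),
        Matrix.one_mul]
      exact hp1 t ht m hm)
    rw [map_prod, Finset.prod_eq_zero_iff] at h3
    obtain ⟨t, ht, h4⟩ := h3
    rw [pev_lsub] at h4
    exact hp2 t ht h4
  -- one coset contains infinitely many elements of the curve
  choose f hf1 hf2 using fun s : ℂ => hcos _ (h s)
  obtain ⟨t, ht, hinf⟩ : ∃ t ∈ T, (f ⁻¹' {t}).Infinite := by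
    by_contra hcon
    push Not at hcon
    have h1 : (Set.univ : Set ℂ) ⊆ ⋃ t ∈ T, f ⁻¹' {t} := by
      intro s _
      rw [Set.mem_iUnion₂]
      exact ⟨f s, hf1 s, rfl⟩
    have h2 : (⋃ t ∈ T, f ⁻¹' {t}).Finite :=
      Set.Finite.biUnion T.finite_toSet fun t ht => hcon t ht
    exact Set.infinite_univ (h2.subset h1)
  have hall : ∀ s : ℂ, t⁻¹ * ue X s ∈ zclosure ℂ ℂ M0 := by
    intro s
    refine ⟨?_, ?_⟩
    · rw [Matrix.det_mul]
      exact (hM.det _ (hM.inv t (hTM t ht))).mul (h s).1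
    · intro p hp
      obtain ⟨P, hP⟩ := curve_poly t⁻¹ X p
      have h1 : P = 0 := by
        apply Polynomial.eq_zero_of_infinite_isRoot
        refine hinf.mono fun x hx => ?_
        change P.eval x = 0
        have hx' : f x = t := hx
        rw [hP, ← hx']
        exact (hf2 x).2 p hp
      rw [← hP, h1, Polynomial.eval_zero]
  have hinv : t⁻¹ ∈ zclosure ℂ ℂ M0 := by
    have := hall 0
    rw [ue_z hX, Matrix.mul_one] at this
    exact this
  have ht2 : t ∈ zclosure ℂ ℂ M0 := by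
    have h1 := MT100A.H97.zcl_inv hc.grp.mul hc.grp.one hinv
    rw [Matrix.nonsing_inv_nonsing_inv _ (hM.det t (hTM t ht))] at h1
    exact h1
  intro s
  have h1 := zcl_mul hc.grp.mul ht2 (hall s)
  rw [← Matrix.mul_assoc, Matrix.mul_nonsing_inv _ (hM.det t (hTM t ht)), Matrix.one_mul] at h1
  exact h1

theorem zclosure_mono {M M0 : Set (Matrix d d ℂ)} (h : M0 ⊆ M) :
    zclosure ℂ ℂ M0 ⊆ zclosure ℂ ℂ M :=
  fun _ hx => ⟨hx.1, fun p hp => hx.2 p fun s hs => hp s (h hs)⟩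

theorem Core.uni_eq {M M0 : Set (Matrix d d ℂ)} (hc : Core M M0) (hM : IsG M) :
    Uni M0 = Uni M := by
  apply Set.Subset.antisymm
  · rintro u ⟨X, hX, rfl, h⟩
    exact ⟨X, hX, rfl, fun s => zclosure_mono hc.sub (h s)⟩
  · rintro u ⟨X, hX, rfl, h⟩
    exact ⟨X, hX, rfl, hc.uni hM hX h⟩

theorem Core.nilP_eq {M M0 : Set (Matrix d d ℂ)} (hc : Core M M0) (hM : IsG M) :
    nilP M0 = nilP M := by
  apply Set.Subset.antisymm
  · rintro X ⟨hX, h⟩
    exact ⟨hX, fun s => zclosure_mono hc.sub (h s)⟩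
  · rintro X ⟨hX, h⟩
    exact ⟨hX, hc.uni hM hX h⟩

/-! ### Change of the rational structure -/

/-- The image of a set of matrices under `g ↦ P gᵀ P⁻¹`. -/
def cj (P : Matrix d d ℂ) (M : Set (Matrix d d ℂ)) : Set (Matrix d d ℂ) :=
  {γ | ∃ g ∈ M, γ = P * gᵀ * P⁻¹}

theorem cj_mul {P : Matrix d d ℂ} (hP : IsUnit P.det) (g h : Matrix d d ℂ) :
    (P * gᵀ * P⁻¹) * (P * hᵀ * P⁻¹) = P * (h * g)ᵀ * P⁻¹ := by
  rw [Matrix.transpose_mul]
  calc (P * gᵀ * P⁻¹) * (P * hᵀ * P⁻¹) = P * gᵀ * (P⁻¹ * P) * hᵀ * P⁻¹ := by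
        simp only [Matrix.mul_assoc]
    _ = P * (gᵀ * hᵀ) * P⁻¹ := by
        rw [Matrix.nonsing_inv_mul _ hP, Matrix.mul_one]
        simp only [Matrix.mul_assoc]

theorem cj_inv {P : Matrix d d ℂ} (hP : IsUnit P.det) {g : Matrix d d ℂ} (hg : IsUnit g.det) :
    (P * gᵀ * P⁻¹)⁻¹ = P * (g⁻¹)ᵀ * P⁻¹ := by
  apply Matrix.inv_eq_right_inv
  rw [cj_mul hP, Matrix.nonsing_inv_mul _ hg, Matrix.transpose_one, Matrix.mul_one,
    Matrix.mul_nonsing_inv _ hP]

theorem IsG.conj {P : Matrix d d ℂ} (hP : IsUnit P.det) {M : Set (Matrix d d ℂ)} (hM : IsG M) :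
    IsG (cj P M) := by
  refine ⟨?_, ?_, ?_, ?_⟩
  · rintro _ ⟨g, hg, rfl⟩
    rw [Matrix.det_mul, Matrix.det_mul, Matrix.det_transpose]
    exact (hP.mul (hM.det g hg)).mul (Matrix.isUnit_nonsing_inv_det _ hP)
  · refine ⟨1, hM.one, ?_⟩
    rw [Matrix.transpose_one, Matrix.mul_one, Matrix.mul_nonsing_inv _ hP]
  · rintro _ ⟨g, hg, rfl⟩ _ ⟨h, hh, rfl⟩
    exact ⟨h * g, hM.mul h hh g hg, cj_mul hP g h⟩
  · rintro _ ⟨g, hg, rfl⟩
    exact ⟨g⁻¹, hM.inv g hg, cj_inv hP (hM.det g hg)⟩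

/-- Substitution of `P gᵀ P⁻¹`. -/
noncomputable def csub (P : Matrix d d ℂ) :
    MvPolynomial (d × d) ℂ →ₐ[ℂ] MvPolynomial (d × d) ℂ :=
  ((MvPolynomial.rename Prod.swap).comp (lsub P)).comp (rsub P⁻¹)

theorem pev_csub (P g : Matrix d d ℂ) (p : MvPolynomial (d × d) ℂ) :
    pev g (csub P p) = pev (P * gᵀ * P⁻¹) p := by
  have h1 : ∀ q : MvPolynomial (d × d) ℂ, pev g (MvPolynomial.rename Prod.swap q) = pev gᵀ q := by
    intro q
    unfold pev
    rw [MvPolynomial.aeval_rename]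
    rfl
  unfold csub
  rw [AlgHom.comp_apply, AlgHom.comp_apply, h1, pev_lsub, pev_rsub]

theorem Core.conj {P : Matrix d d ℂ} (hP : IsUnit P.det) {M M0 : Set (Matrix d d ℂ)}
    (hc : Core M M0) : Core (cj P M) (cj P M0) := by
  classical
  refine ⟨hc.grp.conj hP, ?_, ?_, ?_, ?_⟩
  · rintro _ ⟨g, hg, rfl⟩
    exact ⟨g, hc.sub hg, rfl⟩
  · obtain ⟨T, hT1, hT2⟩ := hc.right
    refine ⟨T.image fun t => P * tᵀ * P⁻¹, ?_, ?_⟩
    · intro t ht
      obtain ⟨s, hs, rfl⟩ := Finset.mem_image.1 ht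
      exact ⟨s, hT1 s hs, rfl⟩
    · rintro _ ⟨g, hg, rfl⟩
      obtain ⟨t, ht, m, hm, rfl⟩ := hT2 g hg
      exact ⟨_, Finset.mem_image_of_mem _ ht, _, ⟨m, hm, rfl⟩, (cj_mul hP t m).symm⟩
  · obtain ⟨T, hT1, hT2⟩ := hc.left
    refine ⟨T.image fun t => P * tᵀ * P⁻¹, ?_, ?_⟩
    · intro t ht
      obtain ⟨s, hs, rfl⟩ := Finset.mem_image.1 ht
      exact ⟨s, hT1 s hs, rfl⟩
    · rintro _ ⟨g, hg, rfl⟩
      obtain ⟨t, ht, m, hm, rfl⟩ := hT2 g hg
      exact ⟨_, Finset.mem_image_of_mem _ ht, _, ⟨m, hm, rfl⟩, (cj_mul hP m t).symm⟩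
  · intro p q h
    rcases hc.pri (csub P p) (csub P q) (fun g hg => by
      rw [← map_mul, pev_csub]
      exact h _ ⟨g, hg, rfl⟩) with h1 | h1
    · left
      rintro _ ⟨g, hg, rfl⟩
      rw [← pev_csub]
      exact h1 g hg
    · right
      rintro _ ⟨g, hg, rfl⟩
      rw [← pev_csub]
      exact h1 g hg

end Pool.Agent.MTN.H53
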