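import Pool.Agent.Helper53_MTN.Core
import Pool.Agent.Helper97_MTD.Maa

/-!
# MTN: Hodge genericity of one fibre from the persistence of relations under the core
-/

set_option autoImplicit false

namespace Pool.Agent.MTN.H53

open Matrix Polynomial Pool.Agent.MT100 Pool.Agent.MT100G Pool.Agent.MT100A Pool.Agent.MT100D
open Pool.Agent.Helper78_MT Pool.Agent.MT100D.H97

universe u

variable {d : Type} [Fintype d] [DecidableEq d]

/-- The monodromy matrices form a group. -/
theorem mo_isG (hbas : BasDStmt) (hmoa : MoaDStmt) (F : Family d) : IsG (F.mo Set.univ) := by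
  obtain ⟨R, hR⟩ := hbas d F
  obtain ⟨h1, h2, h3, h4⟩ := hmoa d F.q F.B R F.Y hR Set.univ
  exact ⟨h1, h2, h3, h4⟩

theorem Mo_eq_cj (F : Family d) (P : Matrix d d ℂ) : F.Mo P = cj P (F.mo Set.univ) := rfl

/-- One fibre: if every relation of degree four with rational coefficients between the periods of high
level at `x` persists under a core `M0` of the monodromy group, the fibre at `x` is Hodge generic. -/
theorem maa_point (hbas : BasDStmt) (hmoa : MoaDStmt) (hT : TenStmt) (hU : TeuStmt)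
    (hL : LieStmt) (F : Family d) (w : ℕ) (hw : 1 ≤ w) (lev : d → ℕ) (P : Matrix d d ℂ)
    (hP : IsUnit P.det) (hInt : F.IntM P) (M0 : Set (Matrix d d ℂ))
    (hc : Core (F.mo Set.univ) M0) (x : ℂ)
    (hper : ∀ t : (Fin 4 → d) → ℚ,
      (∀ a : Fin 4 → d, 2 * w < ∑ j, lev (a j) →
        ∑ β, (t β : ℂ) * ∏ j, F.per P x (a j) (β j) = 0) →
      ∀ g ∈ M0, ∀ a : Fin 4 → d, 2 * w < ∑ j, lev (a j) →
        ∑ β, (t β : ℂ) * ∏ j, (P *ᵥ (F.Y x * g) (a j)) (β j) = 0)
    (E : Matrix d d ℚ) (V : ℕ → Submodule ℂ (d → ℂ)) (hV : PolHodge w E V) (hInv : F.InvM P E)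
    (hFil : F.HasFil lev P x V) (K : Type u) [Field K] [CharZero K] :
    mtGroup w V K = GenM (F.Mo P) w V K := by
  have hG := mo_isG hbas hmoa F
  have hcP : Core (F.Mo P) (cj P M0) := by
    rw [Mo_eq_cj]
    exact hc.conj hP
  have hGP : IsG (F.Mo P) := by
    rw [Mo_eq_cj]
    exact hG.conj hP
  have hfil : ∀ (t : (Fin 4 → d) → ℚ), (∀ (p : Fin 4 → ℕ) (y : Fin 4 → d → ℂ),
      (∀ j, y j ∈ V (p j)) → 2 * w < ∑ j, p j → ∑ β, (t β : ℂ) * ∏ j, y j (β j) = 0) →
      ∀ g ∈ M0, ∀ (p : Fin 4 → ℕ) (y : Fin 4 → d → ℂ), (∀ j, y j ∈ V (p j)) →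
        2 * w < ∑ j, p j →
        ∑ β, (t β : ℂ) * ∏ j, ((P * gᵀ * P⁻¹) *ᵥ y j) (β j) = 0 := by
    intro t ht g hg p y hy hp
    have hker : ∀ a : Fin 4 → d, 2 * w < ∑ j, lev (a j) →
        ∑ β, (t β : ℂ) * ∏ j, F.per P x (a j) (β j) = 0 := by
      intro a ha
      refine MT100G.H97.frm_fil t V w ht (fun j => lev (a j)) ha (fun j => F.per P x (a j)) ?_
      intro j
      rw [hFil (lev (a j))]
      exact Submodule.subset_span ⟨a j, le_refl _, rfl⟩
    refine MT100G.H97.frm_span t (P * gᵀ * P⁻¹)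
      (fun j => {y | ∃ a : d, p j ≤ lev a ∧ y = F.per P x a}) ?_ y ?_
    · intro y hy
      choose a ha hya using hy
      have h2 : ∑ β, (t β : ℂ) * ∏ j, (P *ᵥ (F.Y x * g) (a j)) (β j) = 0 :=
        hper t hker g hg a (lt_of_lt_of_le hp (Finset.sum_le_sum fun j _ => ha j))
      unfold MT100G.H97.frm
      rw [← h2]
      refine Finset.sum_congr rfl fun β _ => ?_
      congr 1
      refine Finset.prod_congr rfl fun j _ => ?_
      show ((P * gᵀ * P⁻¹) *ᵥ y j) (β j) = _
      rw [hya j, per_act F hP]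
    · intro j
      show y j ∈ Submodule.span ℂ {y | ∃ a : d, p j ≤ lev a ∧ y = F.per P x a}
      rw [← hFil (p j)]
      refine (?_ : V (p j) ≤ _) (hy j)
      exact le_iSup₂_of_le (p j) (Set.mem_Ici.2 (le_refl _)) (le_refl _)
  -- the Mumford-Tate group contains the unipotents
  have hUni : ∀ u ∈ Uni (F.Mo P), u ∈ mtGroup w V ℂ := by
    rintro u ⟨X, hX, rfl, hcl⟩
    have hcl0 := hcP.uni hGP hX hcl
    refine hL d w E V hw hV X hX (fun s => MT100A.H97.iso_zclosure hInv (hcl s)) ?_ 1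
    intro t ht s
    refine hU d (cj P M0) 4 (fun β => (t β : ℂ)) ?_ X hX hcl0 s
    set M : Set (Matrix d d ℤ) := {A | A.map (fun x => (x : ℂ)) ∈ cj P M0} with hM
    have hfin := hT d w E V hw hV 4 M ?_ t ?_
    · refine (hfin.image fun s β => ((s β : ℚ) : ℂ)).subset ?_
      rintro s ⟨γ, hγ, rfl⟩
      obtain ⟨B, hB'⟩ := hInt γ (hcP.sub hγ)
      refine ⟨_, ⟨B, by rw [hM]; show _ ∈ cj P M0; rw [← hB']; exact hγ, rfl⟩, ?_⟩
      funext α
      show ((tA t (B.map (fun x => (x : ℚ))) α : ℚ) : ℂ) = tA (fun β => (t β : ℂ)) γ α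
      unfold tA
      rw [hB']
      push_cast
      rfl
    · intro B hB'
      have h1 := hInv _ (hcP.sub hB')
      apply Matrix.map_injective (algebraMap ℚ ℂ).injective
      simp only
      rw [Matrix.map_mul, Matrix.map_mul, ← Matrix.transpose_map]
      have h2 : (B.map (fun x => (x : ℚ))).map (algebraMap ℚ ℂ) = B.map (fun x => (x : ℂ)) := by
        ext i j
        simp
      rw [h2]
      exact h1
    · intro B hB' p y hy hp
      obtain ⟨g, hg, hγ⟩ := hB'
      have h1 := hfil t (fun p x hx hp => ht p x hx (by omega)) g hg p y hy (by omega)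
      rw [← hγ] at h1
      exact h1
  refine Set.Subset.antisymm ?_ ?_
  · intro M hM I hI hT' _
    exact hM I hI hT'
  · intro M hM I hI hT'
    exact hM I hI hT' fun u hu => hUni u hu I hI hT'

end Pool.Agent.MTN.H53
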